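import Pool.Agent.Helper399_SL.Defs
import Mathlib.Algebra.Quandle

/-!
# Colourings of closed braids by a quandle

Quandles are written as in Mathlib: `y ◃ x` is the element often written `x * y`, the image of `x`
under the bijection `S_y`.
-/

set_option autoImplicit false

namespace Pool.Agent.Helper399_QC

open Pool.Agent.Helper399_SL
open scoped Quandles

variable {X : Type*} [Quandle X]

/-- The positive crossing of the strands at the positions `i` and `i + 1`: the strand which comes
from the position `i` with colour `p` passes under the strand which comes from the position `i + 1`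
with colour `q`; the latter keeps its colour, and the former gets the colour `q ◃ p`. -/
def crossFun (i : ℕ) (v : ℕ → X) (a : ℕ) : X :=
  if a = i then v (i + 1) else if a = i + 1 then v (i + 1) ◃ v i else v a

/-- The negative crossing, where the strand which comes from the position `i` passes over the strand
which comes from the position `i + 1`. -/
def crossInv (i : ℕ) (v : ℕ → X) (a : ℕ) : X :=
  if a = i then v i ◃⁻¹ v (i + 1) else if a = i + 1 then v i else v a

theorem crossFun_left (i : ℕ) (v : ℕ → X) : crossFun i v i = v (i + 1) := by simp [crossFun]
theorem crossFun_right (i : ℕ) (v : ℕ → X) : crossFun i v (i + 1) = v (i + 1) ◃ v i := by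
  simp [crossFun]
theorem crossFun_ne {i a : ℕ} (v : ℕ → X) (h : a ≠ i) (h' : a ≠ i + 1) :
    crossFun i v a = v a := by simp [crossFun, h, h']
theorem crossInv_left (i : ℕ) (v : ℕ → X) : crossInv i v i = v i ◃⁻¹ v (i + 1) := by
  simp [crossInv]
theorem crossInv_right (i : ℕ) (v : ℕ → X) : crossInv i v (i + 1) = v i := by simp [crossInv]
theorem crossInv_ne {i a : ℕ} (v : ℕ → X) (h : a ≠ i) (h' : a ≠ i + 1) :
    crossInv i v a = v a := by simp [crossInv, h, h']

variable (X)

/-- The effect of a positive crossing on the colours of the strands. -/
def cross (i : ℕ) : Equiv.Perm (ℕ → X) where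
  toFun := crossFun i
  invFun := crossInv i
  left_inv := by
    intro v
    funext a
    by_cases h : a = i
    · subst h
      rw [crossInv_left, crossFun_left, crossFun_right, Rack.invAct_act_eq]
    · by_cases h' : a = i + 1
      · subst h'
        rw [crossInv_right, crossFun_left]
      · rw [crossInv_ne _ h h', crossFun_ne _ h h']
  right_inv := by
    intro v
    funext a
    by_cases h : a = i
    · subst h
      rw [crossFun_left, crossInv_right]
    · by_cases h' : a = i + 1
      · subst h'
        rw [crossFun_right, crossInv_right, crossInv_left, Rack.act_invAct_eq]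
      · rw [crossFun_ne _ h h', crossInv_ne _ h h']

theorem cross_apply (i : ℕ) (v : ℕ → X) : cross X i v = crossFun i v := rfl
theorem cross_symm_apply (i : ℕ) (v : ℕ → X) : (cross X i)⁻¹ v = crossInv i v := rfl

theorem cross_far (i j : ℕ) (h : i + 1 < j) : cross X i * cross X j = cross X j * cross X i := by
  ext v a
  simp only [Equiv.Perm.mul_apply, cross_apply]
  by_cases h1 : a = i
  · subst h1
    rw [crossFun_left, crossFun_ne _ (by omega) (by omega), crossFun_ne _ (by omega) (by omega),
      crossFun_left]
  by_cases h2 : a = i + 1
  · subst h2
    rw [crossFun_right, crossFun_ne _ (by omega) (by omega), crossFun_ne _ (by omega) (by omega),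
      crossFun_ne _ (by omega) (by omega), crossFun_right]
  rw [crossFun_ne _ h1 h2]
  by_cases h3 : a = j
  · subst h3
    rw [crossFun_left, crossFun_left, crossFun_ne _ (by omega) (by omega)]
  by_cases h4 : a = j + 1
  · subst h4
    rw [crossFun_right, crossFun_right, crossFun_ne _ (by omega) (by omega),
      crossFun_ne _ (by omega) (by omega)]
  rw [crossFun_ne _ h3 h4, crossFun_ne _ h3 h4, crossFun_ne _ h1 h2]

theorem cross_braid (i : ℕ) : cross X i * cross X (i + 1) * cross X i =
    cross X (i + 1) * cross X i * cross X (i + 1) := by
  ext v a
  simp only [Equiv.Perm.mul_apply, cross_apply]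
  by_cases h1 : a = i
  · subst h1
    rw [crossFun_left, crossFun_left, crossFun_ne _ (by omega) (by omega),
      crossFun_ne _ (by omega) (by omega), crossFun_left, crossFun_left]
  by_cases h2 : a = i + 1
  · subst h2
    rw [crossFun_right, crossFun_left, crossFun_left, crossFun_ne _ (by omega) (by omega),
      crossFun_ne _ (by omega) (by omega), crossFun_left, crossFun_ne _ (by omega) (by omega),
      crossFun_right]
  by_cases h3 : a = i + 2
  · subst h3
    rw [crossFun_ne _ (by omega) (by omega), show i + 2 = i + 1 + 1 from rfl, crossFun_right,
      crossFun_ne _ (by omega) (by omega), crossFun_right, crossFun_right,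
      crossFun_right, crossFun_ne _ (by omega) (by omega), crossFun_right, crossFun_left,
      crossFun_ne _ (by omega) (by omega), Shelf.self_distrib]
  rw [crossFun_ne _ h1 h2, crossFun_ne _ h2 (by omega), crossFun_ne _ h1 h2,
    crossFun_ne _ h2 (by omega), crossFun_ne _ h1 h2, crossFun_ne _ h2 (by omega)]

/-- The action of braids on the vectors of colours of the strands (the product `a * b` of two braids
means that one passes first through `b` and then through `a`): if the strands of the braid `b` start
with the colours `v`, then they end with the colours `act X b v`. -/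
def act : Braid →* Equiv.Perm (ℕ → X) :=
  PresentedGroup.toGroup (f := cross X) (by
    rintro r (⟨i, j, h, rfl⟩ | ⟨i, rfl⟩)
    · simp only [map_mul, map_inv, FreeGroup.lift_apply_of, cross_far X i j h, mul_inv_cancel]
    · simp only [map_mul, map_inv, FreeGroup.lift_apply_of, cross_braid X i, mul_inv_cancel])

/-- The colourings of the closure of the braid `b` with `M` strands: vectors `u` of colours of the
strands at the top which are reproduced at the bottom. -/
def Colouring (M : ℕ) (b : Braid) : Type _ :=
  {u : Fin M → X // ∀ v : ℕ → X, (∀ a : Fin M, v a = u a) → act X b v = v}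

end Pool.Agent.Helper399_QC
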