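import Pool.Agent.Helper399_QC.Basic
import Pool.Agent.Helper399_SL.Final

/-!
# Colourings of connected sums of knots
-/

set_option autoImplicit false
set_option linter.unusedSectionVars false

namespace Pool.Agent.Helper399_QC

open Pool.Agent.Helper399_SL
open scoped Quandles
open FreeAbelianGroup (of)

variable {X : Type*} [Quandle X]

/-- The colours after insertion of a strand of colour `c` at the position `l`. -/
def insV (l : ℕ) (c : X) (v : ℕ → X) (a : ℕ) : X :=
  if a < l then v a else if a = l then c else c ◃ v (a - 1)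

theorem insV_lt {l a : ℕ} (c : X) (v : ℕ → X) (h : a < l) : insV l c v a = v a := by
  simp [insV, h]
theorem insV_eq (l : ℕ) (c : X) (v : ℕ → X) : insV l c v l = c := by simp [insV]
theorem insV_gt {l a : ℕ} (c : X) (v : ℕ → X) (h : l ≤ a) : insV l c v (a + 1) = c ◃ v a := by
  have h1 : ¬ (a + 1 < l) := by omega
  have h2 : a + 1 ≠ l := by omega
  simp [insV, h1, h2]

theorem act_ins_sig (l i : ℕ) (c : X) (v : ℕ → X) :
    act X (ins l (sig i)) (insV l c v) = insV l c (act X (sig i) v) := by
  rw [ins_sig, act_sig_apply]
  rcases Nat.lt_trichotomy (i + 1) l with h | h | h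
  · rw [insFun_lt h, act_sig_apply]
    funext a
    by_cases h1 : a = i
    · subst h1
      rw [crossFun_left, insV_lt _ _ h, insV_lt _ _ (by omega), crossFun_left]
    by_cases h2 : a = i + 1
    · subst h2
      rw [crossFun_right, insV_lt _ _ h, insV_lt _ _ (by omega), insV_lt _ _ h, crossFun_right]
    rw [crossFun_ne _ h1 h2]
    unfold insV
    rcases Nat.lt_trichotomy a l with h3 | h3 | h3
    · rw [if_pos h3, if_pos h3, crossFun_ne _ h1 h2]
    · subst h3; simp
    · rw [if_neg (by omega), if_neg (by omega), if_neg (by omega), if_neg (by omega),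
        crossFun_ne _ (by omega) (by omega)]
  · subst h
    rw [insFun_eq rfl, act_mul, act_mul, act_sig_apply, act_inv_apply, act_sig_apply]
    funext a
    by_cases h1 : a = i
    · subst h1
      rw [crossFun_ne _ (by omega) (by omega), crossFun_left, crossInv_left, insV_eq,
        show a + 1 + 1 = (a + 1) + 1 from rfl, insV_gt _ _ le_rfl, Rack.invAct_act_eq,
        insV_lt _ _ (by omega), crossFun_left]
    by_cases h2 : a = i + 1
    · subst h2
      rw [crossFun_left, crossFun_ne _ (by omega) (by omega), crossInv_right, insV_eq, insV_eq]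
    by_cases h3 : a = i + 2
    · subst h3
      rw [show i + 2 = i + 1 + 1 from rfl, crossFun_right, crossFun_ne _ (by omega) (by omega),
        crossInv_right, insV_eq, crossFun_right, crossInv_left, crossInv_ne _ (by omega) (by omega),
        insV_eq, insV_gt _ _ le_rfl, Rack.invAct_act_eq, insV_lt _ _ (by omega),
        insV_gt _ _ le_rfl, crossFun_right]
    rw [crossFun_ne _ h2 (by omega), crossFun_ne _ h1 h2, crossInv_ne _ h2 (by omega)]
    unfold insV
    rcases Nat.lt_trichotomy a (i + 1) with h4 | h4 | h4
    · rw [if_pos h4, if_pos h4, crossFun_ne _ h1 h2]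
    · exact absurd h4 h2
    · rw [if_neg (by omega), if_neg (by omega), if_neg (by omega), if_neg (by omega),
        crossFun_ne _ (by omega) (by omega)]
  · rw [insFun_gt (by omega), act_sig_apply]
    funext a
    by_cases h1 : a = i + 1
    · subst h1
      rw [crossFun_left, insV_gt _ _ (by omega), insV_gt _ _ (by omega), crossFun_left]
    by_cases h2 : a = i + 1 + 1
    · subst h2
      rw [crossFun_right, insV_gt _ _ (by omega), insV_gt _ _ (by omega), insV_gt _ _ (by omega),
        crossFun_right]
      exact Shelf.self_distrib.symm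
    rw [crossFun_ne _ h1 h2]
    unfold insV
    rcases Nat.lt_trichotomy a l with h3 | h3 | h3
    · rw [if_pos h3, if_pos h3, crossFun_ne _ (by omega) (by omega)]
    · subst h3; simp
    · rw [if_neg (by omega), if_neg (by omega), if_neg (by omega), if_neg (by omega),
        crossFun_ne _ (by omega) (by omega)]

theorem act_ins (l : ℕ) (c : X) (b : Braid) : ∀ v : ℕ → X,
    act X (ins l b) (insV l c v) = insV l c (act X b v) := by
  induction b using braid_induction with
  | h1 => intro v; rw [map_one, act_one, act_one]
  | hs i => intro v; exact act_ins_sig l i c v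
  | hm a b ha hb => intro v; rw [map_mul, act_mul, hb, ha, act_mul]
  | hi a ha =>
    intro v
    have h := ha (act X a⁻¹ v)
    rw [act_act_inv] at h
    rw [← h, map_inv, act_inv_act]

/-- The colours after insertion of `z` strands of colour `c` at the positions `m, ..., m + z - 1`. -/
def wideV (m : ℕ) (c : X) : ℕ → (ℕ → X) → (ℕ → X)
  | 0, v => v
  | z + 1, v => insV (m + z) c (wideV m c z v)

theorem act_wide (m : ℕ) (c : X) (z : ℕ) (b : Braid) (v : ℕ → X) :
    act X (wide m z b) (wideV m c z v) = wideV m c z (act X b v) := by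
  induction z with
  | zero => rfl
  | succ z ih =>
    rw [wide_succ]
    show act X (ins (m + z) (wide m z b)) (insV (m + z) c (wideV m c z v)) = _
    rw [act_ins, ih]
    rfl

theorem wideV_lt {m a : ℕ} (h : a < m) (c : X) (z : ℕ) (v : ℕ → X) : wideV m c z v a = v a := by
  induction z with
  | zero => rfl
  | succ z ih =>
    show insV (m + z) c (wideV m c z v) a = _
    rw [insV_lt _ _ (by omega), ih]

theorem wideV_mid {m a z : ℕ} (h : m ≤ a) (h' : a < m + z) (c : X) (v : ℕ → X) :
    wideV m c z v a = c := by
  induction z with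
  | zero => omega
  | succ z ih =>
    show insV (m + z) c (wideV m c z v) a = _
    by_cases h1 : a = m + z
    · subst h1; exact insV_eq _ _ _
    · rw [insV_lt _ _ (by omega), ih (by omega)]

theorem wideV_inj {m M z : ℕ} (hm : m ≤ M) {c : X} {v v' : ℕ → X}
    (h : ∀ a < M + z, wideV m c z v a = wideV m c z v' a) : ∀ a < M, v a = v' a := by
  induction z with
  | zero => exact h
  | succ z ih =>
    apply ih
    intro a ha
    have h' : ∀ a < M + (z + 1), insV (m + z) c (wideV m c z v) a =
      insV (m + z) c (wideV m c z v') a := h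
    by_cases h1 : a < m + z
    · have := h' a (by omega)
      rwa [insV_lt _ _ h1, insV_lt _ _ h1] at this
    · have := h' (a + 1) (by omega)
      rw [insV_gt _ _ (by omega), insV_gt _ _ (by omega)] at this
      exact (Rack.left_cancel _).1 this

/-- The colourings of the first summand extend to the sum: the second summand is coloured with one
colour. -/
noncomputable def extC {M z : ℕ} (hM : 1 ≤ M) {b k : Braid} (hb : b ∈ strands M)
    (hk : k ∈ strands (1 + z)) (x₀ : X) (u : Colouring X M b) :
    Colouring X (M + z) (wide 1 z b * k) :=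
  mkC (v := wideV 1 (ex x₀ u.1 0) z (ex x₀ u.1))
    (mul_mem (wide_mem hM hb) (strands_mono (by omega) hk)) (by
      have h1 : act X k (wideV 1 (ex x₀ u.1 0) z (ex x₀ u.1)) =
          wideV 1 (ex x₀ u.1 0) z (ex x₀ u.1) := by
        funext a
        by_cases ha : a < 1 + z
        · have h2 : ∀ a < 1 + z, wideV 1 (ex x₀ u.1 0) z (ex x₀ u.1) a = ex x₀ u.1 0 := by
            intro a ha
            rcases Nat.eq_zero_or_pos a with h0 | h0
            · subst h0; exact wideV_lt (by omega) _ _ _
            · exact wideV_mid h0 ha _ _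
          rw [act_congr X hk (v' := fun _ => ex x₀ u.1 0) h2 a ha, act_const, h2 a ha]
        · exact act_of_le X hk _ (by omega)
      rw [act_mul, h1, act_wide, act_ex])

theorem extC_injective {M z : ℕ} (hM : 1 ≤ M) {b k : Braid} (hb : b ∈ strands M)
    (hk : k ∈ strands (1 + z)) (x₀ : X) :
    Function.Injective (extC (X := X) hM hb hk x₀) := by
  intro u u' h
  have h1 : ∀ a : Fin (M + z), wideV 1 (ex x₀ u.1 0) z (ex x₀ u.1) a =
      wideV 1 (ex x₀ u'.1 0) z (ex x₀ u'.1) a := fun a => congrFun (congrArg Subtype.val h) a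
  have h0 : ex x₀ u.1 0 = ex x₀ u'.1 0 := by
    have h2 : wideV 1 (ex x₀ u.1 0) z (ex x₀ u.1) 0 = wideV 1 (ex x₀ u'.1 0) z (ex x₀ u'.1) 0 :=
      h1 ⟨0, by omega⟩
    rwa [wideV_lt Nat.one_pos, wideV_lt Nat.one_pos] at h2
  apply Subtype.ext
  funext a
  rw [← ex_lt x₀ u.1 a, ← ex_lt x₀ u'.1 a]
  rw [h0] at h1
  exact wideV_inj hM (fun a ha => h1 ⟨a, ha⟩) a a.2

instance {M : ℕ} {b : Braid} [Finite X] : Finite (Colouring X M b) := by
  unfold Colouring
  infer_instance

theorem card_le_ext [Finite X] [Nonempty X] {M z : ℕ} (hM : 1 ≤ M) {b k : Braid}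
    (hb : b ∈ strands M) (hk : k ∈ strands (1 + z)) :
    Nat.card (Colouring X M b) ≤ Nat.card (Colouring X (M + z) (wide 1 z b * k)) := by
  obtain ⟨x₀⟩ := ‹Nonempty X›
  exact Nat.card_le_card_of_injective _ (extC_injective hM hb hk x₀)

theorem le_card [Finite X] {M : ℕ} (hM : 1 ≤ M) {b : Braid} (hb : b ∈ strands M) :
    Nat.card X ≤ Nat.card (Colouring X M b) := by
  refine Nat.card_le_card_of_injective
    (fun x => mkC hb (fun _ => x) (act_const X b x)) ?_
  intro x y h
  exact congrFun (congrArg Subtype.val h) (⟨0, by omega⟩ : Fin M)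

theorem card_one_le [Finite X] : Nat.card (Colouring X 1 1) ≤ Nat.card X := by
  refine Nat.card_le_card_of_injective (fun u : Colouring X 1 1 => u.1 0) ?_
  intro u u' h
  apply Subtype.ext
  funext a
  have : a = 0 := Subsingleton.elim _ _
  rw [this]
  exact h

theorem colourings_closure [Nonempty X] {M : ℕ} {b : Braid} {s : StringLink 1}
    (h : T0 1 M b = of s) : colourings X (closure s) = Nat.card (Colouring X M b) := by
  obtain ⟨hb, hs⟩ := T0_eq_of h
  rw [T0_pos hb hs] at h
  rw [← FreeAbelianGroup.of_injective h, closure_mk]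
  rfl

variable (X)

theorem card_le_colourings [Finite X] [Nonempty X] (K : Link 1) : Nat.card X ≤ colourings X K := by
  obtain ⟨s, rfl⟩ := exists_closure K
  obtain ⟨M, b, hb, hs, hT⟩ := exists_rep s
  rw [colourings_closure hT]
  exact le_card hs.1 hb

theorem colourings_one [Finite X] [Nonempty X] :
    colourings X (closure (1 : StringLink 1)) = Nat.card X := by
  refine le_antisymm ?_ (card_le_colourings X _)
  rw [colourings_closure (one_spec 1)]
  exact card_one_le

/-- The number of colourings of a summand is at most the number of colourings of the sum. -/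
theorem colourings_mul [Finite X] [Nonempty X] (s t : StringLink 1) :
    colourings X (closure s) ≤ colourings X (closure (s * t)) := by
  obtain ⟨M, b, hb, hs, hT⟩ := exists_rep s
  obtain ⟨N, k, hk, hk', hT'⟩ := exists_rep t
  obtain ⟨z, rfl⟩ : ∃ z, N = 1 + z := ⟨N - 1, by have := hk'.1; omega⟩
  rw [colourings_closure hT, colourings_closure (mul_spec hT hT')]
  exact card_le_ext hs.1 hb hk

/-- For every knot `K` and every `n` there is a knot with at least as many colourings as `K` which
is not separated from the trivial knot by invariants of type `n`. -/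
theorem exists_trivial [Finite X] [Nonempty X] (n : ℕ) (K : Link 1) : ∃ K' : Link 1,
    colourings X K ≤ colourings X K' ∧ ∀ (A : Type) [AddCommGroup A] (v : Link 1 → A),
      LinkType n v → v K' = v (closure 1) := by
  obtain ⟨s, rfl⟩ := exists_closure K
  obtain ⟨s', h, _⟩ := exists_inverse n s
  refine ⟨closure (s * s'), colourings_mul X s s', fun A _ v hv => ?_⟩
  exact eq_of_approx (Approx.of_uni (E_uni h)) v hv

end Pool.Agent.Helper399_QC
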